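import Pool.Agent.Q47.LS.Stm

/-!
# The bad case of the arc lemma
-/

namespace Pool.Agent.Q47.LS

open Real

/-- numerical bound for `eps = arcsin (1 - lam)` -/
theorem eps_bound {lam : ℝ} (h : √3 / 2 < lam) (h1 : lam ≤ 1) :
    0 ≤ arcsin (1 - lam) ∧ arcsin (1 - lam) < 3 / 20 ∧ sin (arcsin (1 - lam)) = 1 - lam := by
  have h3 : (1.732 : ℝ) < √3 := by
    rw [Real.lt_sqrt (by norm_num)]; norm_num
  refine ⟨Real.arcsin_nonneg.mpr (by linarith), ?_, Real.sin_arcsin (by linarith) (by linarith)⟩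
  rw [Real.arcsin_lt_iff_lt_sin' (by constructor <;> linarith [Real.pi_gt_three])]
  have := Real.sin_gt_sub_cube (x := 3 / 20) (by norm_num)
  norm_num at this ⊢
  linarith

/-- a small angle has a large cosine -/
theorem lt_cos_of {ε x : ℝ} (h0 : 0 ≤ ε) (hx : |x| < π / 2 - ε) : sin ε < cos x := by
  rw [← Real.cos_abs x, ← Real.cos_pi_div_two_sub ε]
  exact Real.cos_lt_cos_of_nonneg_of_le_pi (abs_nonneg x) (by linarith [Real.pi_pos]) hx

theorem half_lt_cos {x : ℝ} (hx : |x| < π / 3) : 1 / 2 < cos x := by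
  rw [← Real.cos_abs x, ← Real.cos_pi_div_three]
  exact Real.cos_lt_cos_of_nonneg_of_le_pi (abs_nonneg x) (by linarith [Real.pi_pos]) hx

/-- the functional of a line in the frame `δ` -/
theorem lf_frame (s δ : ℝ) (z w : Pt) :
    lf s z - lf s w = cos (s - δ) * (lf δ z - lf δ w) + sin (s - δ) * (lg δ z - lg δ w) := by
  have e1 : s = (s - δ) + δ := by ring
  have hc : cos s = cos (s - δ) * cos δ - sin (s - δ) * sin δ := by
    conv_lhs => rw [e1]
    exact cos_add _ _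
  have hs : sin s = sin (s - δ) * cos δ + cos (s - δ) * sin δ := by
    conv_lhs => rw [e1]
    exact sin_add _ _
  unfold lf lg
  rw [hc, hs]
  ring

theorem lf_dir {s δ θ : ℝ} {z w : Pt} (h1 : lf δ w - lf δ z = 2 * cos θ)
    (h2 : lg δ w - lg δ z = 2 * sin θ) : lf s w - lf s z = 2 * cos (s - δ - θ) := by
  rw [lf_frame s δ w z, h1, h2, cos_sub (s - δ) θ]
  ring

/-- the direction of an edge which crosses a line -/
theorem dir_exists {lam : ℝ} (hlam : √3 / 2 < lam) {z y : Pt} (hd : dsq z y = 4) {s : ℝ}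
    (h : 2 * lam ≤ lf s y - lf s z) (δ : ℝ) :
    ∃ κ, |κ| < π / 6 ∧ lf δ y - lf δ z = 2 * cos (s - δ + κ) ∧
      lg δ y - lg δ z = 2 * sin (s - δ + κ) := by
  have h3 : √3 * √3 = 3 := Real.mul_self_sqrt (by norm_num)
  have h30 : 0 < √3 := Real.sqrt_pos.mpr (by norm_num)
  have f := dsq_frame s z y
  rw [hd] at f
  set P := lf s y - lf s z with hP
  set P' := lg s y - lg s z with hP'
  have g : P ^ 2 + P' ^ 2 = 4 := by
    rw [hP, hP', f]; ring
  have hPl : √3 < P := by linarith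
  have hP3 : 3 < P ^ 2 := by
    calc 3 = √3 * √3 := h3.symm
      _ < P * P := mul_lt_mul'' hPl hPl h30.le h30.le
      _ = P ^ 2 := by ring
  have hP1 : P' ^ 2 < 1 := by linarith
  have hP2 : |P'| < 1 := by
    rw [← Real.sqrt_sq_eq_abs]
    calc √(P' ^ 2) < √1 := Real.sqrt_lt_sqrt (sq_nonneg _) hP1
      _ = 1 := Real.sqrt_one
  rw [abs_lt] at hP2
  have hs : sin (arcsin (P' / 2)) = P' / 2 := Real.sin_arcsin (by linarith) (by linarith)
  have hc : cos (arcsin (P' / 2)) = P / 2 := by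
    rw [Real.cos_arcsin]
    have : 1 - (P' / 2) ^ 2 = (P / 2) ^ 2 := by nlinarith
    rw [this, Real.sqrt_sq (by linarith)]
  refine ⟨arcsin (P' / 2), ?_, ?_, ?_⟩
  · rw [abs_lt]
    have e1 : arcsin (1 / 2) = π / 6 := by
      rw [← Real.sin_pi_div_six]
      exact Real.arcsin_sin (by linarith [Real.pi_pos]) (by linarith [Real.pi_pos])
    constructor
    · rw [← e1, ← Real.arcsin_neg]
      exact Real.strictMonoOn_arcsin (by constructor <;> norm_num)
        (by constructor <;> linarith) (by linarith)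
    · rw [← e1]
      exact Real.strictMonoOn_arcsin (by constructor <;> linarith)
        (by constructor <;> norm_num) (by linarith)
  · have := lf_frame δ s y z
    rw [this, ← hP, ← hP', cos_add, hs, hc]
    have e1 : cos (δ - s) = cos (s - δ) := by rw [← cos_neg]; congr 1; ring
    have e2 : sin (δ - s) = - sin (s - δ) := by rw [← sin_neg]; congr 1; ring
    rw [e1, e2]; ring
  · have e1 : lg δ y - lg δ z = lf (δ + π / 2) y - lf (δ + π / 2) z := by
      unfold lf lg; rw [cos_add_pi_div_two, sin_add_pi_div_two]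
    rw [e1, lf_frame (δ + π / 2) s y z, ← hP, ← hP', sin_add, hs, hc]
    have e1 : cos (δ + π / 2 - s) = sin (s - δ) := by
      rw [show δ + π / 2 - s = π / 2 - (s - δ) by ring, cos_pi_div_two_sub]
    have e2 : sin (δ + π / 2 - s) = cos (s - δ) := by
      rw [show δ + π / 2 - s = π / 2 - (s - δ) by ring, sin_pi_div_two_sub]
    rw [e1, e2]; ring

/-- squared distance in a frame of directions -/
theorem dsq_dir {δ θ θ' : ℝ} {z y y' : Pt} (h1 : lf δ y - lf δ z = 2 * cos θ)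
    (h2 : lg δ y - lg δ z = 2 * sin θ) (h1' : lf δ y' - lf δ z = 2 * cos θ')
    (h2' : lg δ y' - lg δ z = 2 * sin θ') : dsq y y' = 8 - 8 * cos (θ - θ') := by
  rw [dsq_frame δ y y']
  have e1 : lf δ y - lf δ y' = 2 * cos θ - 2 * cos θ' := by linarith
  have e2 : lg δ y - lg δ y' = 2 * sin θ - 2 * sin θ' := by linarith
  rw [e1, e2, cos_sub]
  nlinarith [sin_sq_add_cos_sq θ, sin_sq_add_cos_sq θ']

/-- two exposed edges at the same vertex have directions of opposite sign -/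
theorem two_dirs {ε ν θ ν' θ' : ℝ} (h0 : 0 ≤ ε) (h1 : ε < 3 / 20)
    (hν : |ν| < π / 2 - ε) (hθ : |θ - ν| < π / 6)
    (hν' : |ν'| < π / 2 - ε) (hθ' : |θ' - ν'| < π / 6)
    (hc : cos (θ - θ') ≤ 1 / 2) (hd : cos (ν - θ') ≤ sin ε) (hd' : cos (ν' - θ) ≤ sin ε)
    (hlt : θ ≤ θ') : θ < 0 ∧ 0 < θ' ∧ π / 3 ≤ θ' - θ := by
  have hpi := Real.pi_gt_three
  have a1 : π / 3 ≤ θ' - θ := by
    by_contra hh
    push Not at hh
    have : |θ - θ'| < π / 3 := by rw [abs_lt]; constructor <;> linarith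
    linarith [half_lt_cos this]
  rw [abs_lt] at hθ hθ' hν hν'
  have a2 : π / 2 - ε ≤ θ' - ν := by
    by_contra hh
    push Not at hh
    have : |ν - θ'| < π / 2 - ε := by rw [abs_lt]; constructor <;> linarith
    linarith [lt_cos_of h0 this]
  have a3 : π / 2 - ε ≤ ν' - θ := by
    by_contra hh
    push Not at hh
    have : |ν' - θ| < π / 2 - ε := by rw [abs_lt]; constructor <;> linarith
    linarith [lt_cos_of h0 this]
  refine ⟨by linarith, by linarith, a1⟩

/-- exposed directions along an upward edge turn only one way -/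
theorem turn {ε ψ θ θ' : ℝ} (h0 : 0 ≤ ε) (h1 : ε < 3 / 20)
    (hψ : |ψ - π / 2| < π / 6 + ε) (hθ : 0 < θ) (hθ2 : θ ≤ 2 * ε) (hθ' : θ' ≤ 0)
    (hθ'2 : -(2 * ε) ≤ θ') :
    0 < (cos ψ + cos θ' - cos θ) ^ 2 + (sin ψ + sin θ' - sin θ) ^ 2 ∧
    (cos ψ + cos θ' - cos θ) ^ 2 + (sin ψ + sin θ' - sin θ) ^ 2 < 1 := by
  have hpi := Real.pi_gt_three
  set x := (θ - θ') / 2 with hx
  set m := (θ + θ') / 2 with hm
  have e1 : cos θ' - cos θ = 2 * sin m * sin x := by
    rw [show θ' = m - x by rw [hx, hm]; ring, show θ = m + x by rw [hx, hm]; ring,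
      cos_sub, cos_add]; ring
  have e2 : sin θ' - sin θ = - (2 * cos m * sin x) := by
    rw [show θ' = m - x by rw [hx, hm]; ring, show θ = m + x by rw [hx, hm]; ring,
      sin_sub, sin_add]; ring
  have e3 : (cos ψ + cos θ' - cos θ) ^ 2 + (sin ψ + sin θ' - sin θ) ^ 2
      = 1 - 4 * sin x * (sin (ψ - m) - sin x) := by
    have a1 : cos ψ + cos θ' - cos θ = cos ψ + 2 * sin m * sin x := by linarith
    have a2 : sin ψ + sin θ' - sin θ = sin ψ - 2 * cos m * sin x := by linarith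
    rw [a1, a2, sin_sub]
    have b1 := sin_sq_add_cos_sq ψ
    have b2 := sin_sq_add_cos_sq m
    have : (cos ψ + 2 * sin m * sin x) ^ 2 + (sin ψ - 2 * cos m * sin x) ^ 2
        = (sin ψ ^ 2 + cos ψ ^ 2) + 4 * sin x ^ 2 * (sin m ^ 2 + cos m ^ 2)
          - 4 * sin x * (sin ψ * cos m - cos ψ * sin m) := by ring
    rw [this, b1, b2]; ring
  have hx0 : 0 < x := by rw [hx]; linarith
  have hx1 : x ≤ 2 * ε := by rw [hx]; linarith
  have hm0 : |m| ≤ ε := by rw [abs_le, hm]; constructor <;> linarith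
  rw [abs_le] at hm0
  rw [abs_lt] at hψ
  have hs0 : 0 < sin x := Real.sin_pos_of_pos_of_lt_pi hx0 (by linarith)
  have hs1 : sin x < 1 / 2 := by
    have := Real.sin_lt hx0
    linarith
  have hs2 : sin x < sin (ψ - m) := by
    have : sin (ψ - m) = cos (ψ - m - π / 2) := by
      rw [cos_sub_pi_div_two]
    rw [this]
    apply lt_cos_of hx0.le
    rw [abs_lt]; constructor <;> linarith
  have hs3 : sin (ψ - m) ≤ 1 := Real.sin_le_one _
  rw [e3]
  constructor
  · nlinarith [sq_nonneg (1 - 2 * sin x), mul_pos hs0 (by linarith : 0 < 1 - sin x)]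
  · nlinarith

/-- shifting a line by a multiple of `π` -/
theorem lf_shift (s : ℝ) (n : ℤ) :
    (∀ z, lf (s - n * π) z = lf s z) ∨ (∀ z, lf (s - n * π) z = - lf s z) := by
  rcases Int.even_or_odd n with h | h
  · left; intro z
    unfold lf
    rw [cos_sub_int_mul_pi, sin_sub_int_mul_pi, h.neg_one_zpow]; ring
  · right; intro z
    unfold lf
    rw [cos_sub_int_mul_pi, sin_sub_int_mul_pi, h.neg_one_zpow]; ring

/-- `z'` is above `z`, with a line whose normal is nearly `δ + π / 2` between them -/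
def Up (lam : ℝ) (X Q : Finset Pt) (δ : ℝ) (z z' : Pt) : Prop :=
  z ∈ Q ∧ z' ∈ Q ∧ dsq z z' = 4 ∧ ∃ s b, Line lam X s b ∧
    |s - δ - π / 2| < arcsin (1 - lam) ∧ lf s z < b ∧ b < lf s z'

/-- the data of an exposed edge -/
def Ex (lam : ℝ) (X Q : Finset Pt) (δ : ℝ) (z y : Pt) (ν θ : ℝ) : Prop :=
  z ∈ Q ∧ y ∈ X ∧ dsq z y = 4 ∧ |ν| < π / 2 - arcsin (1 - lam) ∧ |θ - ν| < π / 6 ∧
    lf δ y - lf δ z = 2 * cos θ ∧ lg δ y - lg δ z = 2 * sin θ ∧
    ∃ b, Line lam X (δ + ν) b ∧ (∀ w ∈ Q, lf (δ + ν) w < b) ∧ b < lf (δ + ν) y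

section

variable {lam : ℝ} {X Q : Finset Pt} {δ : ℝ}

theorem up_or (hlam : √3 / 2 < lam) (h1 : lam ≤ 1) (hX : Sep lam X) (hQ : Q ⊆ X)
    (hbad : ∀ s b : ℝ, Line lam X s b → (∃ z ∈ Q, lf s z < b) → (∃ z ∈ Q, b < lf s z) →
     |cos (s - δ)| < 1 - lam) {z z' : Pt} (hz : z ∈ Q) (hz' : z' ∈ Q) (hd : dsq z z' = 4) :
    Up lam X Q δ z z' ∨ Up lam X Q δ z' z := by
  obtain ⟨e0, e1, e2⟩ := eps_bound hlam h1
  have hne : z ≠ z' := by
    rintro rfl; rw [dsq_self] at hd; norm_num at hd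
  obtain ⟨s, b, hl, hb1, hb2⟩ := hX.sep z (hQ hz) z' (hQ hz') hne
  have hc := hbad s b hl ⟨z, hz, hb1⟩ ⟨z', hz', hb2⟩
  have hpi := Real.pi_pos
  set n : ℤ := ⌊(s - δ) / π⌋ with hn
  have n1 : (n : ℝ) * π ≤ s - δ := by
    have := Int.floor_le ((s - δ) / π)
    rwa [le_div_iff₀ hpi] at this
  have n2 : s - δ < (n + 1 : ℝ) * π := by
    have := Int.lt_floor_add_one ((s - δ) / π)
    rwa [div_lt_iff₀ hpi] at this
  have hcos : |cos (s - n * π - δ)| < 1 - lam := by
    have : cos (s - n * π - δ) = (-1) ^ n * cos (s - δ) := by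
      rw [show s - n * π - δ = (s - δ) - n * π by ring, cos_sub_int_mul_pi]
    rw [this, abs_mul]
    rcases Int.even_or_odd n with h | h
    · rw [h.neg_one_zpow]; simpa using hc
    · rw [h.neg_one_zpow]; simpa using hc
  have hang : |s - n * π - δ - π / 2| < arcsin (1 - lam) := by
    by_contra hh
    push Not at hh
    set x := s - n * π - δ - π / 2 with hx
    have hx1 : |x| ≤ π / 2 := by rw [abs_le, hx]; constructor <;> linarith
    have hcx : cos (s - n * π - δ) = - sin x := by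
      rw [show s - n * π - δ = x + π / 2 by rw [hx]; ring, cos_add_pi_div_two]
    rw [hcx, abs_neg] at hcos
    have : 1 - lam ≤ |sin x| := by
      rw [← e2]
      rcases le_or_gt 0 x with h | h
      · rw [abs_of_nonneg h] at hh hx1
        rw [abs_of_nonneg (Real.sin_nonneg_of_nonneg_of_le_pi h (by linarith))]
        exact Real.sin_le_sin_of_le_of_le_pi_div_two (by linarith) hx1 hh
      · rw [abs_of_neg h] at hh hx1
        have : |sin x| = sin (-x) := by
          rw [sin_neg, abs_of_nonpos]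
          exact Real.sin_nonpos_of_nonpos_of_neg_pi_le h.le (by linarith)
        rw [this]
        exact Real.sin_le_sin_of_le_of_le_pi_div_two (by linarith) hx1 hh
    linarith
  rcases lf_shift s n with h | h
  · left
    refine ⟨hz, hz', hd, s - n * π, b, ?_, hang, by rw [h]; exact hb1, by rw [h]; exact hb2⟩
    intro w hw; rw [h]; exact hl w hw
  · right
    refine ⟨hz', hz, by rw [dsq_comm]; exact hd, s - n * π, -b, ?_, hang, by rw [h]; linarith,
      by rw [h]; linarith⟩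
    intro w hw
    rw [h, show -lf s w - -b = -(lf s w - b) by ring, abs_neg]
    exact hl w hw

/-- direction of an upward edge -/
theorem up_dir (hlam : √3 / 2 < lam) (hQ : Q ⊆ X) {z z' : Pt} (h : Up lam X Q δ z z') :
    ∃ s b κ, Line lam X s b ∧ |s - δ - π / 2| < arcsin (1 - lam) ∧ lf s z < b ∧ b < lf s z' ∧
      |κ| < π / 6 ∧ lf δ z' - lf δ z = 2 * cos (s - δ + κ) ∧
      lg δ z' - lg δ z = 2 * sin (s - δ + κ) := by
  obtain ⟨hz, hz', hd, s, b, hl, ha, hb1, hb2⟩ := h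
  have a1 := hl.le_of_lt (hQ hz) hb1
  have a2 := hl.ge_of_gt (hQ hz') hb2
  obtain ⟨κ, k1, k2, k3⟩ := dir_exists hlam hd (s := s) (by linarith) δ
  exact ⟨s, b, κ, hl, ha, hb1, hb2, k1, k2, k3⟩

theorem up_unique (hlam : √3 / 2 < lam) (h1 : lam ≤ 1) (hX : Sep lam X) (hQ : Q ⊆ X)
    {z z₁ z₂ : Pt} (hu1 : Up lam X Q δ z z₁) (hu2 : Up lam X Q δ z z₂) : z₁ = z₂ := by
  by_contra hne
  obtain ⟨e0, e1, e2⟩ := eps_bound hlam h1
  obtain ⟨s₁, b₁, κ₁, l1, a1, p1, q1, -, -, -⟩ := up_dir hlam hQ hu1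
  obtain ⟨s₂, b₂, κ₂, l2, a2, p2, q2, k2, x2, y2⟩ := up_dir hlam hQ hu2
  have hv := (vertex hlam hX (hQ hu1.1) (hQ hu1.2.1) (hQ hu2.2.1) hu1.2.2.1 hu2.2.2.1 hne
    l1 p1 q1).2
  rw [lf_dir x2 y2] at hv
  have : |s₁ - δ - (s₂ - δ + κ₂)| < π / 2 - arcsin (1 - lam) := by
    rw [abs_lt] at a1 a2 k2 ⊢
    have := Real.pi_gt_three
    constructor <;> linarith
  have := lt_cos_of e0 this
  rw [e2] at this
  linarith

theorem down_unique (hlam : √3 / 2 < lam) (h1 : lam ≤ 1) (hX : Sep lam X) (hQ : Q ⊆ X)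
    {z z₁ z₂ : Pt} (hu1 : Up lam X Q δ z₁ z) (hu2 : Up lam X Q δ z₂ z) : z₁ = z₂ := by
  by_contra hne
  obtain ⟨e0, e1, e2⟩ := eps_bound hlam h1
  obtain ⟨s₁, b₁, κ₁, l1, a1, p1, q1, -, -, -⟩ := up_dir hlam hQ hu1
  obtain ⟨s₂, b₂, κ₂, l2, a2, p2, q2, k2, x2, y2⟩ := up_dir hlam hQ hu2
  have hv := (vertex hlam hX (hQ hu1.2.1) (hQ hu1.1) (hQ hu2.1)
    (by rw [dsq_comm]; exact hu1.2.2.1) (by rw [dsq_comm]; exact hu2.2.2.1) hne
    l1.flip (by rw [lf_add_pi]; linarith) (by rw [lf_add_pi]; linarith)).2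
  rw [lf_add_pi, lf_add_pi] at hv
  have hd := lf_dir (s := s₁) x2 y2
  have : |s₁ - δ - (s₂ - δ + κ₂)| < π / 2 - arcsin (1 - lam) := by
    rw [abs_lt] at a1 a2 k2 ⊢
    have := Real.pi_gt_three
    constructor <;> linarith
  have := lt_cos_of e0 this
  rw [e2] at this
  linarith

/-- an exposed direction at a vertex with an upward edge -/
theorem ex_up (hlam : √3 / 2 < lam) (h1 : lam ≤ 1) (hX : Sep lam X) (hQ : Q ⊆ X)
    {z z' y : Pt} {ν θ : ℝ} (hu : Up lam X Q δ z z') (he : Ex lam X Q δ z y ν θ) :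
    θ ≤ 2 * arcsin (1 - lam) := by
  obtain ⟨e0, e1, e2⟩ := eps_bound hlam h1
  obtain ⟨s₁, b₁, κ₁, l1, a1, p1, q1, -, -, -⟩ := up_dir hlam hQ hu
  obtain ⟨hz, hy, hd, hν, hθ, hx, hy', b, hl, hb, hby⟩ := he
  have hne : z' ≠ y := by
    rintro rfl; exact absurd (hb z' hu.2.1) (by linarith)
  have hv := (vertex hlam hX (hQ hz) (hQ hu.2.1) hy hu.2.2.1 hd hne l1 p1 q1).2
  rw [lf_dir hx hy'] at hv
  by_contra hh
  push Not at hh
  have : |s₁ - δ - θ| < π / 2 - arcsin (1 - lam) := by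
    rw [abs_lt] at a1 hν hθ ⊢
    have := Real.pi_gt_three
    constructor <;> linarith
  have := lt_cos_of e0 this
  rw [e2] at this
  linarith

/-- an exposed direction at a vertex with a downward edge -/
theorem ex_down (hlam : √3 / 2 < lam) (h1 : lam ≤ 1) (hX : Sep lam X) (hQ : Q ⊆ X)
    {z z' y : Pt} {ν θ : ℝ} (hu : Up lam X Q δ z' z) (he : Ex lam X Q δ z y ν θ) :
    -(2 * arcsin (1 - lam)) ≤ θ := by
  obtain ⟨e0, e1, e2⟩ := eps_bound hlam h1
  obtain ⟨s₁, b₁, κ₁, l1, a1, p1, q1, -, -, -⟩ := up_dir hlam hQ hu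
  obtain ⟨hz, hy, hd, hν, hθ, hx, hy', b, hl, hb, hby⟩ := he
  have hne : z' ≠ y := by
    rintro rfl; exact absurd (hb z' hu.1) (by linarith)
  have hv := (vertex hlam hX (hQ hz) (hQ hu.1) hy (by rw [dsq_comm]; exact hu.2.2.1) hd hne
    l1.flip (by rw [lf_add_pi]; linarith) (by rw [lf_add_pi]; linarith)).2
  rw [lf_dir hx hy'] at hv
  by_contra hh
  push Not at hh
  have : |s₁ + π - δ - θ - 2 * π| < π / 2 - arcsin (1 - lam) := by
    rw [abs_lt] at a1 hν hθ ⊢
    have := Real.pi_gt_three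
    constructor <;> linarith
  have := lt_cos_of e0 this
  rw [cos_sub_two_pi, e2] at this
  linarith

/-- two exposed edges at the same vertex -/
theorem ex_two (hlam : √3 / 2 < lam) (h1 : lam ≤ 1) (hX : Sep lam X) (hQ : Q ⊆ X)
    {z y y' : Pt} {ν θ ν' θ' : ℝ} (he : Ex lam X Q δ z y ν θ) (he' : Ex lam X Q δ z y' ν' θ')
    (hne : y ≠ y') (hle : θ ≤ θ') : θ < 0 ∧ 0 < θ' ∧ π / 3 ≤ θ' - θ := by
  obtain ⟨e0, e1, e2⟩ := eps_bound hlam h1
  obtain ⟨hz, hy, hd, hν, hθ, hx, hw, b, hl, hb, hby⟩ := he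
  obtain ⟨-, hy', hd', hν', hθ', hx', hw', b', hl', hb', hby'⟩ := he'
  have v1 := (vertex hlam hX (hQ hz) hy hy' hd hd' hne hl (hb z hz) hby).2
  have v2 := (vertex hlam hX (hQ hz) hy' hy hd' hd hne.symm hl' (hb' z hz) hby').2
  rw [lf_dir hx' hw'] at v1
  rw [lf_dir hx hw] at v2
  rw [show δ + ν - δ - θ' = ν - θ' by ring] at v1
  rw [show δ + ν' - δ - θ = ν' - θ by ring] at v2
  have hdd := hX.pack y hy y' hy' hne
  rw [dsq_dir hx hw hx' hw'] at hdd
  exact two_dirs e0 e1 hν hθ hν' hθ' (by linarith) (by rw [e2]; linarith) (by rw [e2]; linarith)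
    hle

/-- the turning lemma for exposed edges at the ends of an upward edge -/
theorem ex_turn (hlam : √3 / 2 < lam) (h1 : lam ≤ 1) (hX : Sep lam X) (hQ : Q ⊆ X)
    {z z' y y' : Pt} {ν θ ν' θ' : ℝ} (hu : Up lam X Q δ z z') (he : Ex lam X Q δ z y ν θ)
    (he' : Ex lam X Q δ z' y' ν' θ') (hθ0 : 0 < θ) (hθ1 : θ ≤ 2 * arcsin (1 - lam))
    (hθ'1 : -(2 * arcsin (1 - lam)) ≤ θ') : 0 < θ' := by
  obtain ⟨e0, e1, e2⟩ := eps_bound hlam h1
  obtain ⟨s₁, b₁, κ₁, l1, a1, p1, q1, k1, ux, uy⟩ := up_dir hlam hQ hu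
  obtain ⟨hz, hy, hd, hν, hθ, hx, hw, b, hl, hb, hby⟩ := he
  obtain ⟨-, hy', hd', hν', hθ', hx', hw', b', hl', hb', hby'⟩ := he'
  by_contra hh
  push Not at hh
  have hψ : |s₁ - δ + κ₁ - π / 2| < π / 6 + arcsin (1 - lam) := by
    rw [abs_lt] at a1 k1 ⊢
    constructor <;> linarith
  obtain ⟨t1, t2⟩ := turn (ψ := s₁ - δ + κ₁) e0 e1 hψ hθ0 hθ1 hh hθ'1
  have hdist : dsq y' y = 4 * ((cos (s₁ - δ + κ₁) + cos θ' - cos θ) ^ 2
      + (sin (s₁ - δ + κ₁) + sin θ' - sin θ) ^ 2) := by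
    rw [dsq_frame δ y' y]
    have g1 : lf δ y' - lf δ y = 2 * (cos (s₁ - δ + κ₁) + cos θ' - cos θ) := by linarith
    have g2 : lg δ y' - lg δ y = 2 * (sin (s₁ - δ + κ₁) + sin θ' - sin θ) := by linarith
    rw [g1, g2]; ring
  by_cases hyy : y' = y
  · rw [hyy, dsq_self] at hdist
    linarith
  · have := hX.pack y' hy' y hy hyy
    linarith

end

/-- the exposed edges have data -/
theorem ex_data {lam : ℝ} (hlam : √3 / 2 < lam) {X Q : Finset Pt} (hQ : Q ⊆ X) {δ : ℝ}
    {z y : Pt} (hz : z ∈ Q) (hy : y ∈ X) (hd : dsq z y = 4) {s b : ℝ}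
    (hs : |s - δ| < π / 2 - arcsin (1 - lam)) (hl : Line lam X s b)
    (hb : ∀ w ∈ Q, lf s w < b) (hby : b < lf s y) :
    ∃ d : ℝ × ℝ, Ex lam X Q δ z y d.1 d.2 := by
  have a1 := hl.le_of_lt (hQ hz) (hb z hz)
  have a2 := hl.ge_of_gt hy hby
  obtain ⟨κ, k1, k2, k3⟩ := dir_exists hlam hd (s := s) (by linarith) δ
  refine ⟨(s - δ, s - δ + κ), hz, hy, hd, hs, ?_, k2, k3, b, ?_⟩
  · simpa using k1
  · have : δ + (s - δ) = s := by ring
    simp only [this]
    exact ⟨hl, hb, hby⟩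

theorem t_bad : S_bad := by
  intro lam hlam h1 X hX Q hQ δ hbad E hE
  classical
  obtain ⟨e0, e1, e2⟩ := eps_bound hlam h1
  have hpi := Real.pi_gt_three
  have hdata : ∀ p ∈ E, ∃ d : ℝ × ℝ, Ex lam X Q δ p.1 p.2 d.1 d.2 := by
    intro p hp
    obtain ⟨a1, a2, a3, s, b, a4, a5, a6, a7⟩ := hE p hp
    exact ex_data hlam hQ a1 a2 a3 a4 a5 a6 a7
  choose! d hd using hdata
  have hopp : ∀ p ∈ E, ∀ q ∈ E, p.1 = q.1 → p ≠ q →
      ((d p).2 < 0 ∧ 0 < (d q).2 ∧ π / 3 ≤ (d q).2 - (d p).2) ∨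
      ((d q).2 < 0 ∧ 0 < (d p).2 ∧ π / 3 ≤ (d p).2 - (d q).2) := by
    intro p hp q hq hpq hne
    have hne2 : p.2 ≠ q.2 := fun h => hne (Prod.ext hpq h)
    have ep := hd p hp
    have eq := hd q hq
    rw [← hpq] at eq
    rcases le_total (d p).2 (d q).2 with h | h
    · exact Or.inl (ex_two hlam h1 hX hQ ep eq hne2 h)
    · exact Or.inr (ex_two hlam h1 hX hQ eq ep hne2.symm h)
  set R : Pt → Prop := fun z => ∃ p ∈ E, p.1 = z ∧ 0 < (d p).2 ∧ (d p).2 ≤ 2 * arcsin (1 - lam)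
    with hR
  set φ : Pt → ℕ := fun z => if ∃ w, Up lam X Q δ w z ∧ R w then 1 else 0 with hφ
  have hφ1 : ∀ z, φ z ≤ 1 := by
    intro z; rw [hφ]; dsimp only; split_ifs <;> norm_num
  set ex : Pt → ℕ := fun z => (E.filter fun p => p.1 = z).card with hex
  have hex2 : ∀ z, ex z ≤ 2 := by
    intro z
    by_contra hh
    push Not at hh
    obtain ⟨a, b, c, ha, hb, hc, hab, hac, hbc⟩ := Finset.two_lt_card_iff.mp hh
    rw [Finset.mem_filter] at ha hb hc
    have o1 := hopp a ha.1 b hb.1 (by rw [ha.2, hb.2]) hab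
    have o2 := hopp a ha.1 c hc.1 (by rw [ha.2, hc.2]) hac
    have o3 := hopp b hb.1 c hc.1 (by rw [hb.2, hc.2]) hbc
    rcases o1 with o1 | o1 <;> rcases o2 with o2 | o2 <;> rcases o3 with o3 | o3 <;> linarith
  have hex2' : ∀ z, ex z = 2 → ∃ p ∈ E, ∃ q ∈ E, p.1 = z ∧ q.1 = z ∧
      (d p).2 < 0 ∧ 0 < (d q).2 ∧ π / 3 ≤ (d q).2 - (d p).2 := by
    intro z hz
    obtain ⟨a, b, hab, hs⟩ := Finset.card_eq_two.mp hz
    have ha : a ∈ E.filter fun p => p.1 = z := by rw [hs]; simp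
    have hb : b ∈ E.filter fun p => p.1 = z := by rw [hs]; simp
    rw [Finset.mem_filter] at ha hb
    rcases hopp a ha.1 b hb.1 (by rw [ha.2, hb.2]) hab with o | o
    · exact ⟨a, ha.1, b, hb.1, ha.2, hb.2, o⟩
    · exact ⟨b, hb.1, a, ha.1, hb.2, ha.2, o⟩
  have key : ∀ z ∈ Q, ex z + (∑ w ∈ Q, if Up lam X Q δ z w then 1 else 0) + φ z
      ≤ 2 + ∑ w ∈ Q, if Up lam X Q δ z w then φ w else 0 := by
    intro z hz
    by_cases hup : ∃ w, Up lam X Q δ z w
    · obtain ⟨w, hw⟩ := hup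
      have s1 : (∑ w ∈ Q, if Up lam X Q δ z w then 1 else 0) = 1 := by
        rw [Finset.sum_eq_single w]
        · rw [if_pos hw]
        · intro w' _ hne
          rw [if_neg]
          intro h; exact hne (up_unique hlam h1 hX hQ h hw)
        · intro h; exact absurd hw.2.1 h
      have s2 : (∑ w ∈ Q, if Up lam X Q δ z w then φ w else 0) = φ w := by
        rw [Finset.sum_eq_single w]
        · rw [if_pos hw]
        · intro w' _ hne
          rw [if_neg]
          intro h; exact hne (up_unique hlam h1 hX hQ h hw)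
        · intro h; exact absurd hw.2.1 h
      rw [s1, s2]
      have hRφ : R z → φ w = 1 := by
        intro h
        rw [hφ]; dsimp only
        rw [if_pos ⟨z, hw, h⟩]
      rcases Nat.lt_or_ge (ex z) 1 with h0 | h0
      · have := hφ1 z
        omega
      rcases Nat.lt_or_ge (ex z) 2 with h2 | h2
      · have h3 : ex z = 1 := by omega
        by_cases hz1 : ∃ w', Up lam X Q δ w' z ∧ R w'
        · obtain ⟨w', hw', p', hp', hpz, t1, t2⟩ := hz1
          obtain ⟨p, hp⟩ := Finset.card_eq_one.mp h3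
          have hpm : p ∈ E.filter fun p => p.1 = z := by rw [hp]; simp
          rw [Finset.mem_filter] at hpm
          have ep := hd p hpm.1
          rw [hpm.2] at ep
          have ep' := hd p' hp'
          rw [hpz] at ep'
          have t3 := ex_down hlam h1 hX hQ hw' ep
          have t4 := ex_up hlam h1 hX hQ hw ep
          have t5 := ex_turn hlam h1 hX hQ hw' ep' ep t1 t2 t3
          have := hRφ ⟨p, hpm.1, hpm.2, t5, t4⟩
          have := hφ1 z
          omega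
        · have : φ z = 0 := by
            rw [hφ]; dsimp only; rw [if_neg hz1]
          omega
      · have h3 : ex z = 2 := le_antisymm (hex2 z) h2
        obtain ⟨p, hp, q, hq, hpz, hqz, t1, t2, t3⟩ := hex2' z h3
        have ep := hd p hp
        rw [hpz] at ep
        have eq := hd q hq
        rw [hqz] at eq
        have t4 := ex_up hlam h1 hX hQ hw eq
        have h4 := hRφ ⟨q, hq, hqz, t2, t4⟩
        have h5 : φ z = 0 := by
          rw [hφ]; dsimp only
          rw [if_neg]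
          rintro ⟨w', hw', -⟩
          have t5 := ex_down hlam h1 hX hQ hw' ep
          linarith
        omega
    · have s1 : (∑ w ∈ Q, if Up lam X Q δ z w then 1 else 0) = 0 := by
        apply Finset.sum_eq_zero
        intro w _
        rw [if_neg]
        intro h; exact hup ⟨w, h⟩
      have s2 : (∑ w ∈ Q, if Up lam X Q δ z w then φ w else 0) = 0 := by
        apply Finset.sum_eq_zero
        intro w _
        rw [if_neg]
        intro h; exact hup ⟨w, h⟩
      rw [s1, s2]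
      by_cases hz1 : ∃ w', Up lam X Q δ w' z ∧ R w'
      · obtain ⟨w', hw', p', hp', hpz', t1', t2'⟩ := hz1
        have h2 : ex z ≤ 1 := by
          by_contra hh
          push Not at hh
          have h3 : ex z = 2 := le_antisymm (hex2 z) hh
          obtain ⟨p, hp, q, hq, hpz, hqz, t1, t2, t3⟩ := hex2' z h3
          have ep := hd p hp
          rw [hpz] at ep
          have ep' := hd p' hp'
          rw [hpz'] at ep'
          have t4 := ex_down hlam h1 hX hQ hw' ep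
          have t5 := ex_turn hlam h1 hX hQ hw' ep' ep t1' t2' t4
          linarith
        have := hφ1 z
        omega
      · have : φ z = 0 := by
          rw [hφ]; dsimp only; rw [if_neg hz1]
        have := hex2 z
        omega
  have hsum := Finset.sum_le_sum key
  rw [Finset.sum_add_distrib, Finset.sum_add_distrib, Finset.sum_add_distrib] at hsum
  have c1 : ∑ z ∈ Q, ex z = E.card := by
    rw [Finset.card_eq_sum_card_fiberwise (f := Prod.fst) (t := Q)]
    intro p hp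
    exact (hE p hp).1
  set U := (Q ×ˢ Q).filter fun p => Up lam X Q δ p.1 p.2 with hU
  have c2 : ∑ z ∈ Q, (∑ w ∈ Q, if Up lam X Q δ z w then 1 else 0) = U.card := by
    rw [hU, Finset.card_filter, Finset.sum_product]
  have c3 : ∑ z ∈ Q, (∑ w ∈ Q, if Up lam X Q δ z w then φ w else 0) ≤ ∑ w ∈ Q, φ w := by
    rw [Finset.sum_comm]
    apply Finset.sum_le_sum
    intro w hw
    by_cases hdn : ∃ z, Up lam X Q δ z w
    · obtain ⟨z, hz⟩ := hdn
      rw [Finset.sum_eq_single z]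
      · rw [if_pos hz]
      · intro z' _ hne
        rw [if_neg]
        intro h; exact hne (down_unique hlam h1 hX hQ h hz)
      · intro h; exact absurd hz.1 h
    · rw [Finset.sum_eq_zero]
      · exact Nat.zero_le _
      · intro z _
        rw [if_neg]
        intro h; exact hdn ⟨z, h⟩
  have c4 : ∑ z ∈ Q, 2 = 2 * Q.card := by
    rw [Finset.sum_const, smul_eq_mul, mul_comm]
  have c5 : cn Q Q ≤ 2 * U.card := by
    unfold cn
    have hsub : ((Q ×ˢ Q).filter fun p => dsq p.1 p.2 = 4) ⊆ U ∪ U.image Prod.swap := by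
      intro p hp
      rw [Finset.mem_filter, Finset.mem_product] at hp
      rw [Finset.mem_union]
      rcases up_or hlam h1 hX hQ hbad hp.1.1 hp.1.2 hp.2 with h | h
      · left
        rw [hU, Finset.mem_filter, Finset.mem_product]
        exact ⟨hp.1, h⟩
      · right
        rw [Finset.mem_image]
        refine ⟨p.swap, ?_, Prod.swap_swap p⟩
        rw [hU, Finset.mem_filter, Finset.mem_product]
        exact ⟨⟨hp.1.2, hp.1.1⟩, h⟩
    have := Finset.card_le_card hsub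
    have h2 := Finset.card_union_le U (U.image Prod.swap)
    have h3 : (U.image Prod.swap).card ≤ U.card := Finset.card_image_le
    omega
  rw [c1, c2, c4] at hsum
  omega

end Pool.Agent.Q47.LS
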