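import Mathlib

/-!
# Contact numbers of `lambda`-separable packings: definitions and the vertex lemma

Points of the plane are pairs of real numbers, `lf t` is the linear functional with unit normal
`(cos t, sin t)`, a line is given by `t` and `c`.
-/

namespace Pool.Agent.Q47.LS

open Real

abbrev Pt := ℝ × ℝ

/-- the linear functional with unit normal `(cos t, sin t)` -/
noncomputable def lf (t : ℝ) (z : Pt) : ℝ := cos t * z.1 + sin t * z.2

/-- the functional orthogonal to `lf t` -/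
noncomputable def lg (t : ℝ) (z : Pt) : ℝ := -sin t * z.1 + cos t * z.2

/-- squared distance -/
def dsq (z w : Pt) : ℝ := (z.1 - w.1) ^ 2 + (z.2 - w.2) ^ 2

/-- the line `lf t z = c` has distance at least `lam` from every point of `X` -/
def Line (lam : ℝ) (X : Finset Pt) (t c : ℝ) : Prop := ∀ z ∈ X, lam ≤ |lf t z - c|

/-- `X` is the set of centres of a `lam`-separable packing of unit disks -/
structure Sep (lam : ℝ) (X : Finset Pt) : Prop where
  pack : ∀ z ∈ X, ∀ w ∈ X, z ≠ w → 4 ≤ dsq z w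
  sep : ∀ z ∈ X, ∀ w ∈ X, z ≠ w → ∃ t c, Line lam X t c ∧ lf t z < c ∧ c < lf t w

/-- the number of ordered contact pairs in `A × B` -/
noncomputable def cn (A B : Finset Pt) : ℕ :=
  ((A ×ˢ B).filter fun p => dsq p.1 p.2 = 4).card

theorem lf_sub (t : ℝ) (z w : Pt) : lf t z - lf t w = cos t * (z.1 - w.1) + sin t * (z.2 - w.2) := by
  unfold lf; ring

theorem dsq_comm (z w : Pt) : dsq z w = dsq w z := by unfold dsq; ring

theorem dsq_self (z : Pt) : dsq z z = 0 := by unfold dsq; ring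

theorem lf_add_pi (t : ℝ) (z : Pt) : lf (t + π) z = - lf t z := by
  unfold lf; rw [cos_add_pi, sin_add_pi]; ring

theorem lf_sub_pi (t : ℝ) (z : Pt) : lf (t - π) z = - lf t z := by
  unfold lf; rw [cos_sub_pi, sin_sub_pi]; ring

theorem lf_add_two_pi_int (t : ℝ) (n : ℤ) (z : Pt) : lf (t + n * (2 * π)) z = lf t z := by
  unfold lf; rw [cos_add_int_mul_two_pi, sin_add_int_mul_two_pi]

theorem Line.flip {lam : ℝ} {X : Finset Pt} {t c : ℝ} (h : Line lam X t c) :
    Line lam X (t + π) (-c) := by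
  intro z hz
  have := h z hz
  rw [lf_add_pi, show -lf t z - -c = -(lf t z - c) by ring, abs_neg]
  exact this

theorem Line.flip' {lam : ℝ} {X : Finset Pt} {t c : ℝ} (h : Line lam X t c) :
    Line lam X (t - π) (-c) := by
  intro z hz
  have := h z hz
  rw [lf_sub_pi, show -lf t z - -c = -(lf t z - c) by ring, abs_neg]
  exact this

theorem Line.le_of_lt {lam : ℝ} {X : Finset Pt} {t c : ℝ} (h : Line lam X t c) {z : Pt}
    (hz : z ∈ X) (hl : lf t z < c) : lf t z ≤ c - lam := by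
  have := h z hz
  rw [abs_of_neg (by linarith)] at this
  linarith

theorem Line.ge_of_gt {lam : ℝ} {X : Finset Pt} {t c : ℝ} (h : Line lam X t c) {z : Pt}
    (hz : z ∈ X) (hl : c < lf t z) : c + lam ≤ lf t z := by
  have := h z hz
  rw [abs_of_pos (by linarith)] at this
  linarith

theorem Line.lt_or_gt {lam : ℝ} (hlam : 0 < lam) {X : Finset Pt} {t c : ℝ}
    (h : Line lam X t c) {z : Pt} (hz : z ∈ X) : lf t z < c ∨ c < lf t z := by
  have := h z hz
  rcases lt_trichotomy (lf t z) c with h1 | h1 | h1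
  · exact Or.inl h1
  · rw [h1] at this; simp at this; linarith
  · exact Or.inr h1

/-- the squared length in the rotated frame -/
theorem dsq_frame (t : ℝ) (z w : Pt) :
    dsq z w = (lf t z - lf t w) ^ 2 + (lg t z - lg t w) ^ 2 := by
  have h := cos_sq_add_sin_sq t
  have : (lf t z - lf t w) ^ 2 + (lg t z - lg t w) ^ 2
      = (cos t ^ 2 + sin t ^ 2) * ((z.1 - w.1) ^ 2 + (z.2 - w.2) ^ 2) := by
    unfold lf lg; ring
  rw [this, h, one_mul]; rfl

/-- a functional with unit normal does not expand -/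
theorem lf_sub_le (t : ℝ) {z w : Pt} (h : dsq z w = 4) : lf t w - lf t z ≤ 2 := by
  have h1 := dsq_frame t z w
  nlinarith [sq_nonneg (lg t z - lg t w), sq_nonneg (lf t w - lf t z - 2)]

theorem core_sq {P P' R R' : ℝ} (hP : √3 < P) (hR : √3 < R) (g1 : P ^ 2 + P' ^ 2 = 4)
    (g2 : R ^ 2 + R' ^ 2 = 4) (g3 : 4 ≤ (P - R) ^ 2 + (P' - R') ^ 2) : False := by
  have h3 : √3 * √3 = 3 := Real.mul_self_sqrt (by norm_num)
  have h30 : 0 < √3 := Real.sqrt_pos.mpr (by norm_num)
  have a1 : 3 < P * R := by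
    calc 3 = √3 * √3 := h3.symm
      _ < P * R := mul_lt_mul'' hP hR h30.le h30.le
  have a2 : 3 < P ^ 2 := by
    calc 3 = √3 * √3 := h3.symm
      _ < P * P := mul_lt_mul'' hP hP h30.le h30.le
      _ = P ^ 2 := by ring
  have a3 : 3 < R ^ 2 := by
    calc 3 = √3 * √3 := h3.symm
      _ < R * R := mul_lt_mul'' hR hR h30.le h30.le
      _ = R ^ 2 := by ring
  have a4 : 0 ≤ (P' + R') ^ 2 := sq_nonneg _
  have a5 : (P - R) ^ 2 + (P' - R') ^ 2 = (P ^ 2 + P' ^ 2) + (R ^ 2 + R' ^ 2)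
      - 2 * (P * R) - 2 * (P' * R') := by ring
  have a6 : (P' + R') ^ 2 = P' ^ 2 + R' ^ 2 + 2 * (P' * R') := by ring
  rw [a5, g1, g2] at g3
  rw [a6] at a4
  linarith

/-- two contact neighbours of `z` cannot both lie beyond a line -/
theorem unique_above {lam : ℝ} (hlam : √3 / 2 < lam) {X : Finset Pt} (hX : Sep lam X)
    {z y₁ y₂ : Pt} (hz : z ∈ X) (h₁ : y₁ ∈ X) (h₂ : y₂ ∈ X) (d₁ : dsq z y₁ = 4)
    (d₂ : dsq z y₂ = 4) {t c : ℝ} (hl : Line lam X t c) (hzc : lf t z < c)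
    (hc₁ : c < lf t y₁) (hc₂ : c < lf t y₂) : y₁ = y₂ := by
  by_contra hne
  have hp := hX.pack y₁ h₁ y₂ h₂ hne
  have e0 := hl.le_of_lt hz hzc
  have e1 := hl.ge_of_gt h₁ hc₁
  have e2 := hl.ge_of_gt h₂ hc₂
  have f1 := dsq_frame t z y₁
  have f2 := dsq_frame t z y₂
  have f3 := dsq_frame t y₁ y₂
  rw [d₁] at f1
  rw [d₂] at f2
  rw [f3] at hp
  refine core_sq (P := lf t y₁ - lf t z) (P' := lg t y₁ - lg t z) (R := lf t y₂ - lf t z)
    (R' := lg t y₂ - lg t z) (by linarith) (by linarith) ?_ ?_ ?_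
  · rw [f1]; ring
  · rw [f2]; ring
  · calc (4 : ℝ) ≤ _ := hp
      _ = _ := by ring

/-- the vertex lemma: the other neighbours of `z` are low with respect to a line which crosses
an edge at `z` -/
theorem vertex {lam : ℝ} (hlam : √3 / 2 < lam) {X : Finset Pt} (hX : Sep lam X)
    {z y₁ y₂ : Pt} (hz : z ∈ X) (h₁ : y₁ ∈ X) (h₂ : y₂ ∈ X) (d₁ : dsq z y₁ = 4)
    (d₂ : dsq z y₂ = 4) (hne : y₁ ≠ y₂) {t c : ℝ} (hl : Line lam X t c) (hzc : lf t z < c)
    (hc₁ : c < lf t y₁) : lf t y₂ < c ∧ lf t y₂ - lf t z ≤ 2 - 2 * lam := by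
  have h30 : 0 < √3 := Real.sqrt_pos.mpr (by norm_num)
  rcases hl.lt_or_gt (by linarith) h₂ with h | h
  · refine ⟨h, ?_⟩
    have e1 := hl.ge_of_gt h₁ hc₁
    have e2 := hl.le_of_lt h₂ h
    have e3 := lf_sub_le t d₁
    linarith
  · exact absurd (unique_above hlam hX hz h₁ h₂ d₁ d₂ hl hzc hc₁ h) hne

end Pool.Agent.Q47.LS
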