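import Pool.Agent.Q47.LS.Stm

/-!
# The lower bound: pieces of the square grid
-/

namespace Pool.Agent.Q47.LS

open Real

/-- the points of the grid, in rows of length `q` -/
def pt (q i : ℕ) : Pt := (2 * ((i % q : ℕ) : ℝ), 2 * ((i / q : ℕ) : ℝ))

theorem pt_inj {q i j : ℕ} (h : pt q i = pt q j) : i = j := by
  unfold pt at h
  have h1 := congrArg Prod.fst h
  have h2 := congrArg Prod.snd h
  simp only [mul_eq_mul_left_iff, Nat.cast_inj, OfNat.ofNat_ne_zero, or_false] at h1 h2
  rw [← Nat.div_add_mod i q, ← Nat.div_add_mod j q, h1, h2]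

theorem dsq_pt (q i j : ℕ) : dsq (pt q i) (pt q j)
    = (4 * (((i % q : ℕ) : ℤ) - ((j % q : ℕ) : ℤ)) ^ 2
      + 4 * (((i / q : ℕ) : ℤ) - ((j / q : ℕ) : ℤ)) ^ 2 : ℤ) := by
  unfold dsq pt
  generalize i % q = a
  generalize j % q = b
  generalize i / q = c
  generalize j / q = d
  push_cast
  ring

theorem one_le_sq {a b : ℤ} (h : a ≠ b) : 1 ≤ (a - b) ^ 2 := by
  have : a - b ≠ 0 := sub_ne_zero.mpr h
  have := Int.one_le_abs this
  nlinarith [sq_abs (a - b)]

theorem one_le_odd (a b : ℤ) : (1 : ℝ) ≤ |2 * (a : ℝ) - (2 * (b : ℝ) + 1)| := by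
  have h : (1 : ℤ) ≤ |2 * a - (2 * b + 1)| := by
    apply Int.one_le_abs
    omega
  exact_mod_cast h

theorem sep_grid (q n : ℕ) : Sep 1 ((Finset.range n).image (pt q)) := by
  refine ⟨?_, ?_⟩
  · intro z hz w hw hne
    rw [Finset.mem_image] at hz hw
    obtain ⟨i, _, rfl⟩ := hz
    obtain ⟨j, _, rfl⟩ := hw
    rw [dsq_pt]
    have : (4 : ℤ) ≤ 4 * (((i % q : ℕ) : ℤ) - ((j % q : ℕ) : ℤ)) ^ 2
      + 4 * (((i / q : ℕ) : ℤ) - ((j / q : ℕ) : ℤ)) ^ 2 := by
      by_cases h1 : ((i % q : ℕ) : ℤ) = ((j % q : ℕ) : ℤ)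
      · by_cases h2 : ((i / q : ℕ) : ℤ) = ((j / q : ℕ) : ℤ)
        · exfalso
          apply hne
          unfold pt
          rw [show (i % q : ℕ) = (j % q : ℕ) by exact_mod_cast h1,
            show (i / q : ℕ) = (j / q : ℕ) by exact_mod_cast h2]
        · have := one_le_sq h2
          nlinarith [sq_nonneg (((i % q : ℕ) : ℤ) - ((j % q : ℕ) : ℤ))]
      · have := one_le_sq h1
        nlinarith [sq_nonneg (((i / q : ℕ) : ℤ) - ((j / q : ℕ) : ℤ))]
    exact_mod_cast this
  · -- vertical and horizontal lines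
    have hv : ∀ k : ℤ, Line 1 ((Finset.range n).image (pt q)) 0 (2 * (k : ℝ) + 1) := by
      intro k z hz
      rw [Finset.mem_image] at hz
      obtain ⟨i, _, rfl⟩ := hz
      have := one_le_odd ((i % q : ℕ) : ℤ) k
      unfold lf pt
      generalize i % q = a at this ⊢
      simpa using this
    have hh : ∀ k : ℤ, Line 1 ((Finset.range n).image (pt q)) (π / 2) (2 * (k : ℝ) + 1) := by
      intro k z hz
      rw [Finset.mem_image] at hz
      obtain ⟨i, _, rfl⟩ := hz
      have := one_le_odd ((i / q : ℕ) : ℤ) k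
      unfold lf pt
      generalize i / q = a at this ⊢
      simpa using this
    have lfv : ∀ i, lf 0 (pt q i) = 2 * (((i % q : ℕ) : ℤ) : ℝ) := by
      intro i; unfold lf pt
      generalize i % q = a
      simp
    have lfh : ∀ i, lf (π / 2) (pt q i) = 2 * (((i / q : ℕ) : ℤ) : ℝ) := by
      intro i; unfold lf pt
      generalize i / q = a
      simp
    have gen : ∀ (t : ℝ) (f : ℕ → ℤ), (∀ i, lf t (pt q i) = 2 * (f i : ℝ)) →
        (∀ k : ℤ, Line 1 ((Finset.range n).image (pt q)) t (2 * (k : ℝ) + 1)) →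
        ∀ i j, f i ≠ f j → ∃ s c, Line 1 ((Finset.range n).image (pt q)) s c ∧
          lf s (pt q i) < c ∧ c < lf s (pt q j) := by
      intro t f hf hl i j hij
      rcases lt_or_gt_of_ne hij with h | h
      · refine ⟨t, 2 * (f i : ℝ) + 1, hl (f i), by rw [hf]; linarith, ?_⟩
        rw [hf]
        have : f i + 1 ≤ f j := h
        have : ((f i : ℝ)) + 1 ≤ f j := by exact_mod_cast this
        linarith
      · refine ⟨t + π, -(2 * (f j : ℝ) + 1), (hl (f j)).flip, ?_, ?_⟩
        · rw [lf_add_pi, hf]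
          have : f j + 1 ≤ f i := h
          have : ((f j : ℝ)) + 1 ≤ f i := by exact_mod_cast this
          linarith
        · rw [lf_add_pi, hf]; linarith
    intro z hz w hw hne
    rw [Finset.mem_image] at hz hw
    obtain ⟨i, _, rfl⟩ := hz
    obtain ⟨j, _, rfl⟩ := hw
    by_cases h1 : ((i % q : ℕ) : ℤ) = ((j % q : ℕ) : ℤ)
    · by_cases h2 : ((i / q : ℕ) : ℤ) = ((j / q : ℕ) : ℤ)
      · exfalso
        apply hne
        unfold pt
        rw [show (i % q : ℕ) = (j % q : ℕ) by exact_mod_cast h1,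
          show (i / q : ℕ) = (j / q : ℕ) by exact_mod_cast h2]
      · exact gen (π / 2) (fun i => ((i / q : ℕ) : ℤ)) lfh hh i j h2
    · exact gen 0 (fun i => ((i % q : ℕ) : ℤ)) lfv hv i j h1

theorem dsq_pt_succ {q i : ℕ} (hq : 0 < q) (h : (i + 1) % q ≠ 0) :
    dsq (pt q i) (pt q (i + 1)) = 4 := by
  have h1 : (i + 1) % q = i % q + 1 := by
    have hlt := Nat.mod_lt i hq
    rcases Nat.lt_or_ge (i % q + 1) q with h2 | h2
    · rw [Nat.add_mod, Nat.mod_eq_of_lt (show 1 < q by omega)]
      exact Nat.mod_eq_of_lt h2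
    · exfalso; apply h
      have h3 : i % q + 1 = q := by omega
      rw [← Nat.div_add_mod i q, add_assoc, h3, ← Nat.mul_succ]
      exact Nat.mul_mod_right q _
  have h2 : (i + 1) / q = i / q := by
    have e1 := Nat.div_add_mod i q
    have e2 := Nat.div_add_mod (i + 1) q
    have : q * ((i + 1) / q) = q * (i / q) := by omega
    exact Nat.eq_of_mul_eq_mul_left hq this
  rw [dsq_pt, h1, h2]
  push_cast
  ring

theorem dsq_pt_add {q i : ℕ} (hq : 0 < q) : dsq (pt q i) (pt q (i + q)) = 4 := by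
  rw [dsq_pt, Nat.add_mod_right, Nat.add_div_right i hq]
  push_cast
  ring

theorem t_low : S_low := by
  intro n hn
  classical
  set q := Nat.sqrt (n - 1) + 1 with hq
  have hq0 : 0 < q := by omega
  have q1 : n ≤ q * q := by
    have := Nat.lt_succ_sqrt (n - 1)
    have h2 : n - 1 < q * q := this
    omega
  have q2 : (q - 1) * (q - 1) < n := by
    have := Nat.sqrt_le (n - 1)
    have h2 : (q - 1) * (q - 1) ≤ n - 1 := by
      rw [hq, Nat.add_sub_cancel]; exact this
    omega
  refine ⟨(Finset.range n).image (pt q), ?_, sep_grid q n, ?_⟩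
  · rw [Finset.card_image_of_injective _ (fun i j h => pt_inj h), Finset.card_range]
  -- the index sets
  set I₁ := (Finset.range (n - 1)).filter fun i => ¬ (q ∣ i + 1) with hI₁
  set I₂ := Finset.range (n - q) with hI₂
  have c1 : I₁.card + (n - 1) / q = n - 1 := by
    have h1 := Finset.card_filter_add_card_filter_not (s := Finset.range (n - 1))
      (fun i => q ∣ i + 1)
    have h2 : I₁.card = (Finset.filter (fun a => ¬ q ∣ a + 1) (Finset.range (n - 1))).card := by
      rw [hI₁]
    have h3 : (Finset.filter (fun a => q ∣ a + 1) (Finset.range (n - 1))).card = (n - 1) / q :=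
      Nat.card_multiples (n - 1) q
    have h4 : (Finset.range (n - 1)).card = n - 1 := Finset.card_range _
    rw [h2, ← h3, add_comm]
    rw [h4] at h1
    convert h1
  have c2 : I₂.card = n - q := Finset.card_range _
  set f₁ : ℕ → Pt × Pt := fun i => (pt q i, pt q (i + 1)) with hf₁
  set f₂ : ℕ → Pt × Pt := fun i => (pt q (i + 1), pt q i) with hf₂
  set f₃ : ℕ → Pt × Pt := fun i => (pt q i, pt q (i + q)) with hf₃
  set f₄ : ℕ → Pt × Pt := fun i => (pt q (i + q), pt q i) with hf₄
  have j1 : Function.Injective f₁ := fun i j h => pt_inj (congrArg Prod.fst h)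
  have j2 : Function.Injective f₂ := fun i j h => pt_inj (congrArg Prod.snd h)
  have j3 : Function.Injective f₃ := fun i j h => pt_inj (congrArg Prod.fst h)
  have j4 : Function.Injective f₄ := fun i j h => pt_inj (congrArg Prod.snd h)
  have hsub : (I₁.image f₁ ∪ I₁.image f₂) ∪ (I₂.image f₃ ∪ I₂.image f₄) ⊆
      ((((Finset.range n).image (pt q)) ×ˢ ((Finset.range n).image (pt q))).filter
        fun p => dsq p.1 p.2 = 4) := by
    intro p hp
    rw [Finset.mem_filter, Finset.mem_product]
    rw [Finset.mem_union, Finset.mem_union, Finset.mem_union, Finset.mem_image,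
      Finset.mem_image, Finset.mem_image, Finset.mem_image] at hp
    rcases hp with (⟨i, hi, rfl⟩ | ⟨i, hi, rfl⟩) | (⟨i, hi, rfl⟩ | ⟨i, hi, rfl⟩)
    · rw [hI₁, Finset.mem_filter, Finset.mem_range] at hi
      refine ⟨⟨Finset.mem_image_of_mem _ (Finset.mem_range.mpr (by omega)),
        Finset.mem_image_of_mem _ (Finset.mem_range.mpr (by omega))⟩, ?_⟩
      exact dsq_pt_succ hq0 (fun h => hi.2 (Nat.dvd_of_mod_eq_zero h))
    · rw [hI₁, Finset.mem_filter, Finset.mem_range] at hi
      refine ⟨⟨Finset.mem_image_of_mem _ (Finset.mem_range.mpr (by omega)),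
        Finset.mem_image_of_mem _ (Finset.mem_range.mpr (by omega))⟩, ?_⟩
      rw [dsq_comm]
      exact dsq_pt_succ hq0 (fun h => hi.2 (Nat.dvd_of_mod_eq_zero h))
    · rw [hI₂, Finset.mem_range] at hi
      refine ⟨⟨Finset.mem_image_of_mem _ (Finset.mem_range.mpr (by omega)),
        Finset.mem_image_of_mem _ (Finset.mem_range.mpr (by omega))⟩, ?_⟩
      exact dsq_pt_add hq0
    · rw [hI₂, Finset.mem_range] at hi
      refine ⟨⟨Finset.mem_image_of_mem _ (Finset.mem_range.mpr (by omega)),
        Finset.mem_image_of_mem _ (Finset.mem_range.mpr (by omega))⟩, ?_⟩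
      rw [dsq_comm]
      exact dsq_pt_add hq0
  have d12 : Disjoint (I₁.image f₁) (I₁.image f₂) := by
    rw [Finset.disjoint_left]
    intro p hp hp'
    rw [Finset.mem_image] at hp hp'
    obtain ⟨i, _, rfl⟩ := hp
    obtain ⟨j, _, h⟩ := hp'
    have a1 := pt_inj (congrArg Prod.fst h)
    have a2 := pt_inj (congrArg Prod.snd h)
    omega
  have d34 : Disjoint (I₂.image f₃) (I₂.image f₄) := by
    rw [Finset.disjoint_left]
    intro p hp hp'
    rw [Finset.mem_image] at hp hp'
    obtain ⟨i, _, rfl⟩ := hp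
    obtain ⟨j, _, h⟩ := hp'
    have a1 := pt_inj (congrArg Prod.fst h)
    have a2 := pt_inj (congrArg Prod.snd h)
    omega
  have dd : Disjoint (I₁.image f₁ ∪ I₁.image f₂) (I₂.image f₃ ∪ I₂.image f₄) := by
    rw [Finset.disjoint_left]
    intro p hp hp'
    rw [Finset.mem_union, Finset.mem_image, Finset.mem_image] at hp hp'
    rcases hp with ⟨i, hi, rfl⟩ | ⟨i, hi, rfl⟩ <;> rcases hp' with ⟨j, _, h⟩ | ⟨j, _, h⟩ <;>
      have a1 := pt_inj (congrArg Prod.fst h) <;>
      have a2 := pt_inj (congrArg Prod.snd h) <;>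
      rw [hI₁, Finset.mem_filter] at hi
    · have : q = 1 := by omega
      exact hi.2 (by rw [this]; exact one_dvd _)
    · omega
    · omega
    · have : q = 1 := by omega
      exact hi.2 (by rw [this]; exact one_dvd _)
  have hcard := Finset.card_le_card hsub
  rw [Finset.card_union_of_disjoint dd, Finset.card_union_of_disjoint d12,
    Finset.card_union_of_disjoint d34, Finset.card_image_of_injective _ j1,
    Finset.card_image_of_injective _ j2, Finset.card_image_of_injective _ j3,
    Finset.card_image_of_injective _ j4] at hcard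
  change _ ≤ ((((Finset.range n).image (pt q)) ×ˢ ((Finset.range n).image (pt q))).filter
        fun p => dsq p.1 p.2 = 4).card
  refine le_trans ?_ hcard
  -- arithmetic
  have hn0 : (0 : ℝ) < n := by exact_mod_cast hn
  have hs0 : 0 ≤ √(n : ℝ) := Real.sqrt_nonneg _
  have hss : √(n : ℝ) * √(n : ℝ) = n := Real.mul_self_sqrt hn0.le
  have hfl : ((⌊2 * (n : ℝ) - 2 * √(n : ℝ)⌋₊ : ℕ) : ℝ) ≤ 2 * (n : ℝ) - 2 * √(n : ℝ) := by
    apply Nat.floor_le
    have : (1 : ℝ) ≤ n := by exact_mod_cast hn
    nlinarith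
  set F := ⌊2 * (n : ℝ) - 2 * √(n : ℝ)⌋₊ with hF
  have hqn : q ≤ n := by
    rcases Nat.lt_or_ge q 3 with h | h
    · have : q = 1 ∨ q = 2 := by omega
      rcases this with h | h
      · omega
      · rw [h] at q2; omega
    · have h4 : q - 1 + 1 = q := by omega
      nlinarith
  rcases Nat.lt_or_ge (q * (q - 1)) n with hB | hA
  · -- n > q (q - 1)
    have h1 : (n - 1) / q ≤ q - 1 := by
      have : (n - 1) / q < q := by
        rw [Nat.div_lt_iff_lt_mul hq0]; omega
      omega
    have h2 : (2 * (q : ℝ) - 1) < 2 * √(n : ℝ) := by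
      have h3 : q * (q - 1) + 1 ≤ n := hB
      have h4 : ((q * (q - 1) + 1 : ℕ) : ℝ) ≤ n := by exact_mod_cast h3
      rw [Nat.cast_add, Nat.cast_mul, Nat.cast_sub (by omega : 1 ≤ q)] at h4
      push_cast at h4
      by_contra hh
      push Not at hh
      nlinarith
    have h3 : (F : ℝ) < 2 * n - 2 * q + 1 := by linarith
    have h4 : F + 2 * q < 2 * n + 1 := by
      have : (F : ℝ) + 2 * q < 2 * n + 1 := by linarith
      exact_mod_cast this
    omega
  · -- n ≤ q (q - 1)
    have hq2 : 2 ≤ q := by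
      by_contra hh
      have : q = 1 := by omega
      rw [this] at hA
      omega
    have h1 : (n - 1) / q ≤ q - 2 := by
      have : (n - 1) / q < q - 1 := by
        rw [Nat.div_lt_iff_lt_mul hq0]
        rw [mul_comm]; omega
      omega
    have h2 : (q : ℝ) - 1 < √(n : ℝ) := by
      rw [Real.lt_sqrt (by
        have : (2 : ℝ) ≤ q := by exact_mod_cast hq2
        linarith)]
      have h4 : (((q - 1) * (q - 1) : ℕ) : ℝ) < n := by exact_mod_cast q2
      rw [Nat.cast_mul, Nat.cast_sub (by omega : 1 ≤ q)] at h4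
      push_cast at h4
      nlinarith
    have h3 : (F : ℝ) < 2 * n - 2 * q + 2 := by linarith
    have h4 : F + 2 * q < 2 * n + 2 := by
      have : (F : ℝ) + 2 * q < 2 * n + 2 := by linarith
      exact_mod_cast this
    omega

end Pool.Agent.Q47.LS
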