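import Pool.Agent.Q47.LS.Defs

/-!
# Contact numbers of `lambda`-separable packings: statements of the lemma jobs
-/

namespace Pool.Agent.Q47.LS

open Real

/-- `d` is at least `min_{x ≥ m} (x + a / x)` -/
def GB (a m d : ℝ) : Prop := 2 * √a ≤ d ∧ (0 < m → a ≤ m ^ 2 → m + a / m ≤ d)

/-- algebra of a cut, wide or not -/
def S_alg0 : Prop := ∀ a₁ a₂ k d₁ d₂ : ℝ, 0 < a₁ → 0 < a₂ → 0 ≤ k → GB a₁ k d₁ → GB a₂ k d₂ →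
  2 * √(a₁ + a₂) ≤ d₁ + d₂ - k

/-- algebra of a cut of a wide set -/
def S_alg : Prop := ∀ a₁ a₂ m₁ m₂ k d₁ d₂ : ℝ, 0 < a₁ → 0 < a₂ → 0 ≤ m₁ → 0 ≤ m₂ → 0 ≤ k →
  0 < m₁ + m₂ → a₁ + a₂ ≤ (m₁ + m₂) ^ 2 →
  GB a₁ m₁ d₁ → GB a₁ k d₁ → m₁ + k ≤ d₁ →
  GB a₂ m₂ d₂ → GB a₂ k d₂ → m₂ + k ≤ d₂ →
  (m₁ + m₂) + (a₁ + a₂) / (m₁ + m₂) ≤ d₁ + d₂ - k

/-- the case in which every line that splits `A` is nearly parallel to the given line -/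
def S_par : Prop := ∀ lam : ℝ, √3 / 2 < lam → lam ≤ 1 → ∀ X : Finset Pt, Sep lam X →
  ∀ A ⊆ X, ∀ t c : ℝ, Line lam X t c → (∀ z ∈ A, lf t z < c) →
  (∀ s b : ℝ, Line lam X s b → (∃ z ∈ A, lf s z < b) → (∃ z ∈ A, b < lf s z) →
     1 - 2 * (1 - lam) ^ 2 ≤ |cos (s - t)|) →
  cn A A + 2 * cn A (X.filter fun z => c < lf t z) ≤ 2 * A.card

/-- the case of the arc lemma in which every line that splits `Q` has normal nearly orthogonal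
to the middle direction `δ` of the arc -/
def S_bad : Prop := ∀ lam : ℝ, √3 / 2 < lam → lam ≤ 1 → ∀ X : Finset Pt, Sep lam X →
  ∀ Q ⊆ X, ∀ δ : ℝ,
  (∀ s b : ℝ, Line lam X s b → (∃ z ∈ Q, lf s z < b) → (∃ z ∈ Q, b < lf s z) →
     |cos (s - δ)| < 1 - lam) →
  ∀ E : Finset (Pt × Pt), (∀ p ∈ E, p.1 ∈ Q ∧ p.2 ∈ X ∧ dsq p.1 p.2 = 4 ∧
     ∃ s b, |s - δ| < π / 2 - arcsin (1 - lam) ∧ Line lam X s b ∧ (∀ z ∈ Q, lf s z < b) ∧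
       b < lf s p.2) →
  cn Q Q + 2 * E.card ≤ 4 * Q.card

/-- the arc lemma -/
def S_arc : Prop := ∀ lam : ℝ, √3 / 2 < lam → lam ≤ 1 → ∀ X : Finset Pt, Sep lam X →
  ∀ Q ⊆ X, ∀ α β : ℝ, α ≤ β → β - α < π - 2 * arcsin (1 - lam) →
  ∀ E : Finset (Pt × Pt), (∀ p ∈ E, p.1 ∈ Q ∧ p.2 ∈ X ∧ dsq p.1 p.2 = 4 ∧
     ∃ s b, α ≤ s ∧ s ≤ β ∧ Line lam X s b ∧ (∀ z ∈ Q, lf s z < b) ∧ b < lf s p.2) →
  cn Q Q + 2 * E.card ≤ 4 * Q.card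

/-- the width lemma -/
def S_wide : Prop := ∀ lam : ℝ, √3 / 2 < lam → lam ≤ 1 → ∀ X : Finset Pt, Sep lam X →
  ∀ A ⊆ X, 2 * √(A.card : ℝ) ≤ 2 * (A.card : ℝ) - (cn A A : ℝ) / 2 ∧
    ∀ t c : ℝ, Line lam X t c → (∀ z ∈ A, lf t z < c) →
      GB (A.card : ℝ) (cn A (X.filter fun z => c < lf t z) : ℝ)
        (2 * (A.card : ℝ) - (cn A A : ℝ) / 2)

/-- the lower bound -/
def S_low : Prop := ∀ n : ℕ, 1 ≤ n → ∃ X : Finset Pt, X.card = n ∧ Sep 1 X ∧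
  2 * ⌊2 * (n : ℝ) - 2 * √(n : ℝ)⌋₊ ≤ cn X X

end Pool.Agent.Q47.LS
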