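import Pool.Agent.Q47.LS.Stm

/-!
# The width lemma
-/

namespace Pool.Agent.Q47.LS

open Real

theorem cn_comm (A B : Finset Pt) : cn A B = cn B A := by
  unfold cn
  apply Finset.card_bij (fun p _ => p.swap)
  · intro p hp
    rw [Finset.mem_filter, Finset.mem_product] at hp ⊢
    exact ⟨⟨hp.1.2, hp.1.1⟩, by rw [Prod.fst_swap, Prod.snd_swap, dsq_comm]; exact hp.2⟩
  · intro p _ q _ h
    exact Prod.swap_injective h
  · intro p hp
    rw [Finset.mem_filter, Finset.mem_product] at hp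
    refine ⟨p.swap, ?_, Prod.swap_swap p⟩
    rw [Finset.mem_filter, Finset.mem_product]
    exact ⟨⟨hp.1.2, hp.1.1⟩, by rw [Prod.fst_swap, Prod.snd_swap, dsq_comm]; exact hp.2⟩

theorem cn_union_left {A B : Finset Pt} (C : Finset Pt) (h : Disjoint A B) :
    cn (A ∪ B) C = cn A C + cn B C := by
  unfold cn
  rw [Finset.union_product, Finset.filter_union, Finset.card_union_of_disjoint]
  rw [Finset.disjoint_left] at h ⊢
  intro p hp hp'
  rw [Finset.mem_filter, Finset.mem_product] at hp hp'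
  exact h hp.1.1 hp'.1.1

theorem cn_union_right {A B : Finset Pt} (C : Finset Pt) (h : Disjoint A B) :
    cn C (A ∪ B) = cn C A + cn C B := by
  rw [cn_comm, cn_union_left C h, cn_comm A C, cn_comm B C]

theorem cn_mono_right (A : Finset Pt) {B C : Finset Pt} (h : B ⊆ C) : cn A B ≤ cn A C := by
  unfold cn
  apply Finset.card_le_card
  intro p hp
  rw [Finset.mem_filter, Finset.mem_product] at hp ⊢
  exact ⟨⟨hp.1.1, h hp.1.2⟩, hp.2⟩

theorem cn_split {A B : Finset Pt} (h : Disjoint A B) :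
    cn (A ∪ B) (A ∪ B) = cn A A + cn B B + 2 * cn A B := by
  rw [cn_union_left _ h, cn_union_right _ h, cn_union_right _ h, cn_comm B A]
  ring

theorem cn_self_of_card_le_one {A : Finset Pt} (h : A.card ≤ 1) : cn A A = 0 := by
  unfold cn
  rw [Finset.card_eq_zero, Finset.filter_eq_empty_iff]
  intro p hp
  rw [Finset.mem_product] at hp
  have := Finset.card_le_one.mp h p.1 hp.1 p.2 hp.2
  rw [this, dsq_self]
  norm_num

/-- splitting a set by a line -/
theorem split_line {lam : ℝ} (hlam : 0 < lam) {X A : Finset Pt} (hA : A ⊆ X) {s b : ℝ}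
    (hl : Line lam X s b) :
    A = (A.filter fun z => lf s z < b) ∪ (A.filter fun z => b < lf s z) ∧
    Disjoint (A.filter fun z => lf s z < b) (A.filter fun z => b < lf s z) := by
  constructor
  · ext z
    rw [Finset.mem_union, Finset.mem_filter, Finset.mem_filter]
    constructor
    · intro h
      rcases hl.lt_or_gt hlam (hA h) with h1 | h1
      · exact Or.inl ⟨h, h1⟩
      · exact Or.inr ⟨h, h1⟩
    · rintro (h | h) <;> exact h.1
  · rw [Finset.disjoint_left]
    intro z hz hz'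
    rw [Finset.mem_filter] at hz hz'
    linarith [hz.2, hz'.2]

theorem GB.anti {a m k d : ℝ} (_ha : 0 < a) (hk : 0 ≤ k) (hkm : k ≤ m) (h : GB a m d) :
    GB a k d := by
  refine ⟨h.1, ?_⟩
  intro hk0 hak
  have hm0 : 0 < m := lt_of_lt_of_le hk0 hkm
  have ham : a ≤ m ^ 2 := le_trans hak (by nlinarith)
  refine le_trans ?_ (h.2 hm0 ham)
  have h1 : m + a / m - (k + a / k) = (m - k) * (k * m - a) / (k * m) := by
    field_simp
    ring
  have h2 : 0 ≤ (m - k) * (k * m - a) / (k * m) := by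
    apply div_nonneg _ (by positivity)
    apply mul_nonneg (by linarith)
    nlinarith
  linarith

theorem t_wide (Harc : S_arc) (Hpar : S_par) (H0 : S_alg0) (H1 : S_alg) : S_wide := by
  intro lam hlam h1 X hX
  have h30 : 0 < √3 := Real.sqrt_pos.mpr (by norm_num)
  have hl0 : 0 < lam := by linarith
  have hpi := Real.pi_gt_three
  suffices H : ∀ n : ℕ, ∀ A ⊆ X, A.card = n →
      (2 * √(A.card : ℝ) ≤ 2 * (A.card : ℝ) - (cn A A : ℝ) / 2 ∧
      ∀ t c : ℝ, Line lam X t c → (∀ z ∈ A, lf t z < c) →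
      GB (A.card : ℝ) (cn A (X.filter fun z => c < lf t z) : ℝ)
        (2 * (A.card : ℝ) - (cn A A : ℝ) / 2)) from fun A hA => H A.card A hA rfl
  intro n
  induction n using Nat.strong_induction_on with
  | _ n ih =>
  intro A hA hn
  -- a split of `A` by a line
  have hsplit : ∀ s b : ℝ, Line lam X s b → (∃ z ∈ A, lf s z < b) → (∃ z ∈ A, b < lf s z) →
      ∃ A₁ A₂ : Finset Pt, A₁ ⊆ A ∧ A₂ ⊆ A ∧ (∀ z ∈ A₁, lf s z < b) ∧ (∀ z ∈ A₂, b < lf s z) ∧
        Disjoint A₁ A₂ ∧ A₁ ∪ A₂ = A ∧ 0 < A₁.card ∧ 0 < A₂.card ∧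
        GB (A₁.card : ℝ) (cn A₁ A₂ : ℝ) (2 * (A₁.card : ℝ) - (cn A₁ A₁ : ℝ) / 2) ∧
        GB (A₂.card : ℝ) (cn A₁ A₂ : ℝ) (2 * (A₂.card : ℝ) - (cn A₂ A₂ : ℝ) / 2) := by
    intro s b hl hlo hhi
    obtain ⟨e1, e2⟩ := split_line hl0 hA hl
    set A₁ := A.filter fun z => lf s z < b with hA₁
    set A₂ := A.filter fun z => b < lf s z with hA₂
    have s1 : A₁ ⊆ A := Finset.filter_subset _ _
    have s2 : A₂ ⊆ A := Finset.filter_subset _ _
    have p1 : ∀ z ∈ A₁, lf s z < b := fun z hz => (Finset.mem_filter.mp hz).2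
    have p2 : ∀ z ∈ A₂, b < lf s z := fun z hz => (Finset.mem_filter.mp hz).2
    have c1 : 0 < A₁.card := by
      obtain ⟨z, hz, hzb⟩ := hlo
      exact Finset.card_pos.mpr ⟨z, Finset.mem_filter.mpr ⟨hz, hzb⟩⟩
    have c2 : 0 < A₂.card := by
      obtain ⟨z, hz, hzb⟩ := hhi
      exact Finset.card_pos.mpr ⟨z, Finset.mem_filter.mpr ⟨hz, hzb⟩⟩
    have c3 : A₁.card + A₂.card = A.card := by
      rw [← Finset.card_union_of_disjoint e2, ← e1]
    refine ⟨A₁, A₂, s1, s2, p1, p2, e2, e1.symm, c1, c2, ?_, ?_⟩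
    · have := (ih A₁.card (by omega) A₁ (s1.trans hA) rfl).2 s b hl p1
      refine this.anti (by exact_mod_cast c1) (Nat.cast_nonneg _) ?_
      exact_mod_cast cn_mono_right A₁ (fun z hz => Finset.mem_filter.mpr ⟨hA (s2 hz), p2 z hz⟩)
    · have := (ih A₂.card (by omega) A₂ (s2.trans hA) rfl).2 (s + π) (-b) hl.flip
        (fun z hz => by rw [lf_add_pi]; linarith [p2 z hz])
      refine this.anti (by exact_mod_cast c2) (Nat.cast_nonneg _) ?_
      rw [cn_comm A₁ A₂]
      exact_mod_cast cn_mono_right A₂ (fun z hz => Finset.mem_filter.mpr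
        ⟨hA (s1 hz), by rw [lf_add_pi]; linarith [p1 z hz]⟩)
  have first : 2 * √(A.card : ℝ) ≤ 2 * (A.card : ℝ) - (cn A A : ℝ) / 2 := by
    rcases Nat.lt_or_ge 1 A.card with hc | hc
    · obtain ⟨x, hx, y, hy, hxy⟩ := Finset.one_lt_card.mp hc
      obtain ⟨s, b, hl, hb1, hb2⟩ := hX.sep x (hA hx) y (hA hy) hxy
      obtain ⟨A₁, A₂, s1, s2, p1, p2, hdis, hun, c1, c2, g1, g2⟩ :=
        hsplit s b hl ⟨x, hx, hb1⟩ ⟨y, hy, hb2⟩
      have := H0 _ _ _ _ _ (by exact_mod_cast c1) (by exact_mod_cast c2)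
        (Nat.cast_nonneg _) g1 g2
      have e1 : cn A A = cn A₁ A₁ + cn A₂ A₂ + 2 * cn A₁ A₂ := by
        rw [← hun]; exact cn_split hdis
      have e2 : A.card = A₁.card + A₂.card := by
        rw [← hun]; exact Finset.card_union_of_disjoint hdis
      rw [e1, e2]
      push_cast
      linarith
    · rw [cn_self_of_card_le_one hc]
      have : A.card = 0 ∨ A.card = 1 := by omega
      rcases this with h | h <;> rw [h] <;> simp
  refine ⟨first, ?_⟩
  intro t c hl hb
  refine ⟨first, ?_⟩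
  set B := X.filter fun z => c < lf t z with hB
  intro hm0 hma
  by_cases hcase : ∀ s b : ℝ, Line lam X s b → (∃ z ∈ A, lf s z < b) → (∃ z ∈ A, b < lf s z) →
     1 - 2 * (1 - lam) ^ 2 ≤ |cos (s - t)|
  · have hp := Hpar lam hlam h1 X hX A hA t c hl hb hcase
    have hp' : (cn A A : ℝ) + 2 * (cn A B : ℝ) ≤ 2 * (A.card : ℝ) := by exact_mod_cast hp
    have hm1 : (1 : ℝ) ≤ (cn A B : ℝ) := by exact_mod_cast hm0
    have : (A.card : ℝ) / (cn A B : ℝ) ≤ A.card := by
      rw [div_le_iff₀ hm0]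
      nlinarith [Nat.cast_nonneg (α := ℝ) A.card]
    linarith
  · push Not at hcase
    obtain ⟨s₀, b, hl₀, hlo₀, hhi₀, hcos₀⟩ := hcase
    -- shift the angle
    obtain ⟨s, hs, hls, hls2⟩ : ∃ s, |s - t| ≤ π ∧ (∀ z, lf s z = lf s₀ z) ∧
        cos (s - t) = cos (s₀ - t) := by
      refine ⟨s₀ + (-round ((s₀ - t) / (2 * π)) : ℤ) * (2 * π), ?_, ?_, ?_⟩
      · have := abs_sub_round ((s₀ - t) / (2 * π))
        have h2 : s₀ + ((-round ((s₀ - t) / (2 * π)) : ℤ) : ℝ) * (2 * π) - t
            = ((s₀ - t) / (2 * π) - round ((s₀ - t) / (2 * π))) * (2 * π) := by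
          push_cast
          field_simp
          ring
        rw [h2, abs_mul, abs_of_pos (by linarith : (0 : ℝ) < 2 * π)]
        nlinarith
      · intro z; exact lf_add_two_pi_int _ _ _
      · rw [show s₀ + ((-round ((s₀ - t) / (2 * π)) : ℤ) : ℝ) * (2 * π) - t
          = (s₀ - t) + ((-round ((s₀ - t) / (2 * π)) : ℤ) : ℝ) * (2 * π) by ring,
          cos_add_int_mul_two_pi]
    have hl' : Line lam X s b := by
      intro z hz; rw [hls]; exact hl₀ z hz
    rw [← hls2] at hcos₀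
    have hσ : 0 ≤ 1 - lam := by linarith
    have hσ2 : 1 - lam < 1 / 5 := by
      have h3 : (1.732 : ℝ) < √3 := by
        rw [Real.lt_sqrt (by norm_num)]; norm_num
      linarith
    set ε := arcsin (1 - lam) with hε
    have hsinε : sin ε = 1 - lam := Real.sin_arcsin (by linarith) (by linarith)
    have hε0 : 0 ≤ ε := Real.arcsin_nonneg.mpr hσ
    have hε1 : ε ≤ π / 2 := Real.arcsin_le_pi_div_two _
    have hcos2 : cos (2 * ε) = 1 - 2 * (1 - lam) ^ 2 := by
      rw [Real.cos_two_mul, ← hsinε]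
      nlinarith [sin_sq_add_cos_sq ε]
    rw [← hcos2] at hcos₀
    have hx1 : 2 * ε < |s - t| := by
      by_contra hh
      push Not at hh
      have := Real.cos_le_cos_of_nonneg_of_le_pi (abs_nonneg (s - t)) (by linarith) hh
      rw [cos_abs] at this
      have h2 := le_abs_self (cos (s - t))
      linarith
    have hx2 : |s - t| < π - 2 * ε := by
      by_contra hh
      push Not at hh
      have := Real.cos_le_cos_of_nonneg_of_le_pi (by linarith : 0 ≤ π - 2 * ε) hs hh
      rw [cos_abs, cos_pi_sub] at this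
      have h2 := neg_abs_le (cos (s - t))
      linarith
    obtain ⟨A₁, A₂, s1, s2, p1, p2, hdis, hun, c1, c2, g1, g2⟩ := hsplit s b hl'
      (by obtain ⟨z, hz, hz2⟩ := hlo₀; exact ⟨z, hz, by rw [hls]; exact hz2⟩)
      (by obtain ⟨z, hz, hz2⟩ := hhi₀; exact ⟨z, hz, by rw [hls]; exact hz2⟩)
    have e1 : cn A A = cn A₁ A₁ + cn A₂ A₂ + 2 * cn A₁ A₂ := by
      rw [← hun]; exact cn_split hdis
    have e2 : A.card = A₁.card + A₂.card := by
      rw [← hun]; exact Finset.card_union_of_disjoint hdis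
    have e3 : cn A B = cn A₁ B + cn A₂ B := by
      rw [← hun]; exact cn_union_left _ hdis
    have hBA : Disjoint B A := by
      rw [Finset.disjoint_left]
      intro z hz hz'
      have := (Finset.mem_filter.mp hz).2
      linarith [hb z hz']
    -- the corner bounds
    have corner : ∀ P R : Finset Pt, P ⊆ A → R ⊆ A → ∀ s' b' : ℝ, Line lam X s' b' →
        (∀ z ∈ P, lf s' z < b') → (∀ z ∈ R, b' < lf s' z) → |s' - t| < π - 2 * ε →
        (cn P B : ℝ) + (cn P R : ℝ) ≤ 2 * (P.card : ℝ) - (cn P P : ℝ) / 2 := by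
      intro P R hP hR s' b' hl'' hP' hR' hst
      have hdisE : Disjoint ((P ×ˢ B).filter fun p => dsq p.1 p.2 = 4)
          ((P ×ˢ R).filter fun p => dsq p.1 p.2 = 4) := by
        rw [Finset.disjoint_left]
        intro p hp hp'
        rw [Finset.mem_filter, Finset.mem_product] at hp hp'
        exact Finset.disjoint_left.mp hBA hp.1.2 (hR hp'.1.2)
      rw [abs_lt] at hst
      have := Harc lam hlam h1 X hX P (hP.trans hA) (min t s') (max t s')
        (le_trans (min_le_left _ _) (le_max_left _ _))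
        (by
          rcases le_total t s' with h | h
          · rw [min_eq_left h, max_eq_right h]; linarith
          · rw [min_eq_right h, max_eq_left h]; linarith)
        (((P ×ˢ B).filter fun p => dsq p.1 p.2 = 4) ∪
          ((P ×ˢ R).filter fun p => dsq p.1 p.2 = 4))
        (by
          intro p hp
          rw [Finset.mem_union, Finset.mem_filter, Finset.mem_filter, Finset.mem_product,
            Finset.mem_product] at hp
          rcases hp with ⟨⟨q1, q2⟩, q3⟩ | ⟨⟨q1, q2⟩, q3⟩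
          · rw [hB, Finset.mem_filter] at q2
            exact ⟨q1, q2.1, q3, t, c, min_le_left _ _, le_max_left _ _, hl,
              fun z hz => hb z (hP hz), q2.2⟩
          · exact ⟨q1, hA (hR q2), q3, s', b', min_le_right _ _, le_max_right _ _, hl'',
              hP', hR' _ q2⟩)
      rw [Finset.card_union_of_disjoint hdisE] at this
      have h2 : (cn P P : ℝ) + 2 * ((cn P B : ℝ) + (cn P R : ℝ)) ≤ 4 * (P.card : ℝ) := by
        exact_mod_cast this
      linarith
    have k1 := corner A₁ A₂ s1 s2 s b hl' p1 p2 hx2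
    have k2 : (cn A₂ B : ℝ) + (cn A₂ A₁ : ℝ) ≤ 2 * (A₂.card : ℝ) - (cn A₂ A₂ : ℝ) / 2 := by
      rcases le_total t s with h | h
      · refine corner A₂ A₁ s2 s1 (s - π) (-b) hl'.flip'
          (fun z hz => by rw [lf_sub_pi]; linarith [p2 z hz])
          (fun z hz => by rw [lf_sub_pi]; linarith [p1 z hz]) ?_
        rw [abs_of_nonneg (by linarith)] at hx1 hs
        rw [abs_lt]; constructor <;> linarith
      · refine corner A₂ A₁ s2 s1 (s + π) (-b) hl'.flip
          (fun z hz => by rw [lf_add_pi]; linarith [p2 z hz])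
          (fun z hz => by rw [lf_add_pi]; linarith [p1 z hz]) ?_
        rw [abs_of_nonpos (by linarith)] at hx1 hs
        rw [abs_lt]; constructor <;> linarith
    rw [cn_comm A₂ A₁] at k2
    have i1 := (ih A₁.card (by omega) A₁ (s1.trans hA) rfl).2 t c hl (fun z hz => hb z (s1 hz))
    have i2 := (ih A₂.card (by omega) A₂ (s2.trans hA) rfl).2 t c hl (fun z hz => hb z (s2 hz))
    rw [← hB] at i1 i2
    have hm0' : (0 : ℝ) < (cn A₁ B : ℝ) + (cn A₂ B : ℝ) := by
      have : (cn A B : ℝ) = (cn A₁ B : ℝ) + (cn A₂ B : ℝ) := by exact_mod_cast e3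
      rw [← this]; exact hm0
    have hma' : (A₁.card : ℝ) + (A₂.card : ℝ) ≤ ((cn A₁ B : ℝ) + (cn A₂ B : ℝ)) ^ 2 := by
      have h3 : (cn A B : ℝ) = (cn A₁ B : ℝ) + (cn A₂ B : ℝ) := by exact_mod_cast e3
      have h4 : (A.card : ℝ) = (A₁.card : ℝ) + (A₂.card : ℝ) := by exact_mod_cast e2
      rw [← h3, ← h4]; exact hma
    have fin := H1 (A₁.card : ℝ) (A₂.card : ℝ) (cn A₁ B : ℝ) (cn A₂ B : ℝ) (cn A₁ A₂ : ℝ)
      (2 * (A₁.card : ℝ) - (cn A₁ A₁ : ℝ) / 2) (2 * (A₂.card : ℝ) - (cn A₂ A₂ : ℝ) / 2)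
      (by exact_mod_cast c1) (by exact_mod_cast c2) (Nat.cast_nonneg _) (Nat.cast_nonneg _)
      (Nat.cast_nonneg _) hm0' hma' i1 g1 k1 i2 g2 k2
    rw [e1, e2, e3]
    push_cast
    linarith

end Pool.Agent.Q47.LS
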